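import Pool.Agent.N105.LT.Defs
import Pool.Agent.Helper717.LT.P_specP

/-!
Project LG (helper105), part ERR: entries of `X` and `X * X` against the trace of `X * X * X`.
-/

set_option autoImplicit false

open scoped Matrix

namespace Pool.Agent.N79.LG
open LTd

theorem entry {n : ℕ} (V : Mat n) (d : Fin n → ℝ) (i j : Fin n) :
    (V * Matrix.diagonal d * Vᵀ) i j = ∑ k, V i k * d k * V j k := by
  rw [Matrix.mul_apply]
  refine Finset.sum_congr rfl fun k _ => ?_
  rw [Matrix.mul_diagonal, Matrix.transpose_apply]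

theorem prod {n : ℕ} (V : Mat n) (hV : Vᵀ * V = 1) (d e : Fin n → ℝ) :
    (V * Matrix.diagonal d * Vᵀ) * (V * Matrix.diagonal e * Vᵀ) =
      V * Matrix.diagonal (fun k => d k * e k) * Vᵀ := by
  calc (V * Matrix.diagonal d * Vᵀ) * (V * Matrix.diagonal e * Vᵀ)
      = V * Matrix.diagonal d * (Vᵀ * V) * Matrix.diagonal e * Vᵀ := by
        simp only [Matrix.mul_assoc]
    _ = V * (Matrix.diagonal d * Matrix.diagonal e) * Vᵀ := by
        rw [hV, Matrix.mul_one]
        simp only [Matrix.mul_assoc]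
    _ = V * Matrix.diagonal (fun k => d k * e k) * Vᵀ := by
        rw [Matrix.diagonal_mul_diagonal]

theorem row_sq {n : ℕ} (V : Mat n) (hV : V * Vᵀ = 1) (i : Fin n) : ∑ k, V i k ^ 2 = 1 := by
  have h : (V * Vᵀ) i i = 1 := by rw [hV, Matrix.one_apply_eq]
  rw [Matrix.mul_apply] at h
  rw [← h]
  refine Finset.sum_congr rfl fun k _ => ?_
  rw [Matrix.transpose_apply, sq]

theorem abs_le_one {n : ℕ} (V : Mat n) (hV : V * Vᵀ = 1) (i k : Fin n) : |V i k| ≤ 1 := by
  have h1 := row_sq V hV i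
  have h2 : V i k ^ 2 ≤ ∑ k, V i k ^ 2 :=
    Finset.single_le_sum (f := fun k => V i k ^ 2) (fun k _ => sq_nonneg _) (Finset.mem_univ k)
  rw [h1] at h2
  exact abs_le_one_iff_mul_self_le_one.2 (by rw [← sq]; exact h2)

theorem entry_le {n : ℕ} (V : Mat n) (hV : V * Vᵀ = 1) (d : Fin n → ℝ) (hd : ∀ k, 0 ≤ d k)
    (i j : Fin n) : |(V * Matrix.diagonal d * Vᵀ) i j| ≤ ∑ k, d k := by
  rw [entry]
  refine (Finset.abs_sum_le_sum_abs _ _).trans (Finset.sum_le_sum fun k _ => ?_)
  rw [abs_mul, abs_mul, abs_of_nonneg (hd k)]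
  have h1 := abs_le_one V hV i k
  have h2 := abs_le_one V hV j k
  have h3 : |V i k| * d k ≤ d k := mul_le_of_le_one_left (hd k) h1
  calc |V i k| * d k * |V j k| ≤ |V i k| * d k * 1 := by
        have : 0 ≤ |V i k| * d k := mul_nonneg (abs_nonneg _) (hd k)
        gcongr
    _ ≤ d k := by rw [mul_one]; exact h3

theorem err {n : ℕ} (X : Mat n) (hX : PSD X) (i j : Fin n) :
    |X i j * (X * X) i j| ≤ n ^ 3 * (X * X * X).trace ∧ 0 ≤ (X * X * X) i i ∧
      (X * X * X) i i ≤ (X * X * X).trace := by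
  obtain ⟨V, r, hV1, hV2, hr, hXe⟩ := specP hX
  have h2 : X * X = V * Matrix.diagonal (fun k => r k * r k) * Vᵀ := by
    rw [hXe, prod V hV2]
  have h3 : X * X * X = V * Matrix.diagonal (fun k => r k * r k * r k) * Vᵀ := by
    rw [h2, hXe, prod V hV2]
  have htr : (X * X * X).trace = ∑ k, r k * r k * r k := by
    rw [h3, Matrix.trace_mul_comm, ← Matrix.mul_assoc, hV2, Matrix.one_mul, Matrix.trace_diagonal]
  have hdiag : ∀ i, 0 ≤ (X * X * X) i i := by
    intro i
    rw [h3, entry]
    refine Finset.sum_nonneg fun k _ => ?_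
    have e : V i k * (r k * r k * r k) * V i k = V i k ^ 2 * (r k * r k * r k) := by ring
    rw [e]
    have := hr k
    positivity
  refine ⟨?_, hdiag i, ?_⟩
  · have hn : 1 ≤ n := Nat.one_le_iff_ne_zero.2 fun h => by
      subst h
      exact Fin.elim0 i
    have hnr : (1 : ℝ) ≤ n := by exact_mod_cast hn
    have hx : |X i j| ≤ ∑ k, r k := by
      conv_lhs => rw [hXe]
      exact entry_le V hV1 r hr i j
    have hxx : |(X * X) i j| ≤ ∑ k, r k * r k := by
      rw [h2]
      exact entry_le V hV1 _ (fun k => mul_nonneg (hr k) (hr k)) i j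
    have hT : 0 ≤ ∑ k, r k * r k * r k := Finset.sum_nonneg fun k _ => by
      have := hr k
      positivity
    rw [abs_mul, htr]
    have key : (∑ k, r k) * ∑ l, r l * r l ≤ n * ∑ k, r k * r k * r k := by
      rw [Finset.sum_mul_sum]
      have h4 : ∀ k l, r k * (r l * r l) ≤
          1 / 3 * (r k * r k * r k) + 2 / 3 * (r l * r l * r l) := by
        intro k l
        have ha := hr k
        have hb := hr l
        have : 0 ≤ (r k - r l) ^ 2 * (r k + 2 * r l) := by positivity
        nlinarith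
      calc ∑ k, ∑ l, r k * (r l * r l)
          ≤ ∑ k, ∑ l, (1 / 3 * (r k * r k * r k) + 2 / 3 * (r l * r l * r l)) :=
            Finset.sum_le_sum fun k _ => Finset.sum_le_sum fun l _ => h4 k l
        _ = n * ∑ k, r k * r k * r k := by
            simp only [Finset.sum_add_distrib, Finset.sum_const, Finset.card_univ,
              Fintype.card_fin, nsmul_eq_mul, ← Finset.mul_sum]
            ring
    calc |X i j| * |(X * X) i j| ≤ (∑ k, r k) * ∑ l, r l * r l :=
          mul_le_mul hx hxx (abs_nonneg _) (Finset.sum_nonneg fun k _ => hr k)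
      _ ≤ n * ∑ k, r k * r k * r k := key
      _ ≤ n ^ 3 * ∑ k, r k * r k * r k := by
          have h5 : (n : ℝ) ≤ n ^ 3 := le_self_pow₀ hnr (by norm_num)
          gcongr
  · exact Finset.single_le_sum (f := fun i => (X * X * X) i i) (fun i _ => hdiag i)
      (Finset.mem_univ i)

end Pool.Agent.N79.LG
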